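import Pool.Agent.T6.H59.NN.Final

/-!
# The number of uncovered vertices: explicit exponent and heavy tails
-/

set_option autoImplicit false

namespace Pool.Agent.Run7.h697.NN

open MeasureTheory Filter Pool.Agent.T6.H59.NN

variable {d : ℕ}

/-- the lower bound for the expectation with the exponent `1 / (2 d + 16)` -/
theorem power_explicit (hd : 2 ^ 20 ≤ d) : ∃ c : ℝ, 0 < c ∧ c ≤ 1 ∧ ∀ n : ℕ, 1 ≤ n →
    c * (n : ℝ) ^ (1 / (2 * (d : ℝ) + 16)) ≤ ∫ x, ((unc x n).card : ℝ) ∂(P d) := by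
  have hd1 : 0 < d := lt_of_lt_of_le (by norm_num) hd
  obtain ⟨j0, hj0, hsm⟩ := exists_rr_le hd1 (c := 1 / 32) (by norm_num)
  set ts : ℕ := max j0 (2 ^ d + 1) with hts
  have hts1 : j0 ≤ ts := le_max_left _ _
  have hts2 : 2 ^ d < ts := by
    have := le_max_right j0 (2 ^ d + 1)
    omega
  have hpos := base_pos hd hts2 (hsm ts hts1)
  have he0 : 0 < aa d j0 ts := by
    have h1 : 0 < (P d).real (GE d ts) :=
      ENNReal.toReal_pos hpos.ne' (measure_ne_top _ _)
    refine lt_of_lt_of_le h1 ?_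
    unfold aa
    exact Finset.single_le_sum (f := fun j => (P d).real (GE d j))
      (fun _ _ => measureReal_nonneg) (Finset.mem_Icc.mpr ⟨hts1, le_rfl⟩)
  set e0 := aa d j0 ts with he
  set K : ℕ := 2 ^ 16 * 4 ^ d with hK
  have hK1 : 1 < K := by
    have : 1 ≤ 4 ^ d := Nat.one_le_pow _ _ (by norm_num)
    omega
  have hK1' : (1 : ℝ) < K := by exact_mod_cast hK1
  set T : ℕ := ts + 1 with hT
  have hT0 : (0 : ℝ) < T := by positivity
  have hT1 : (1 : ℝ) ≤ T := by
    rw [hT]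
    push_cast
    linarith [Nat.cast_nonneg (α := ℝ) ts]
  set γ : ℝ := 1 / (2 * (d : ℝ) + 16) with hγ
  have hden : (0 : ℝ) < 2 * (d : ℝ) + 16 := by positivity
  have hγ0 : 0 < γ := by positivity
  have hKγ : (K : ℝ) ^ γ = 2 := by
    have h1 : (K : ℝ) = (2 : ℝ) ^ (2 * (d : ℝ) + 16) := by
      have h2 : (2 * (d : ℝ) + 16) = ((2 * d + 16 : ℕ) : ℝ) := by push_cast; ring
      rw [h2, Real.rpow_natCast, hK, pow_add, pow_mul]
      push_cast
      ring
    rw [h1, ← Real.rpow_mul (by norm_num), hγ, mul_one_div_cancel hden.ne', Real.rpow_one]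
  have hTγ : 0 < (T : ℝ) ^ γ := Real.rpow_pos_of_pos hT0 _
  refine ⟨min (e0 / 2) 1 / (T : ℝ) ^ γ, by positivity, ?_, fun n hn => ?_⟩
  · rw [div_le_one hTγ]
    exact (min_le_right _ _).trans (Real.one_le_rpow hT1 hγ0.le)
  have hn0 : (0 : ℝ) < n := by exact_mod_cast hn
  rw [div_mul_eq_mul_div, div_le_iff₀ hTγ]
  rcases Nat.eq_zero_or_pos (n / T) with hq | hq
  · -- small `n`
    have h1 : n < T := by
      rcases Nat.div_eq_zero_iff.mp hq with h | h
      · omega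
      · exact h
    have h2 : (n : ℝ) ^ γ ≤ (T : ℝ) ^ γ :=
      Real.rpow_le_rpow hn0.le (by exact_mod_cast h1.le) hγ0.le
    have h3 : (1 : ℝ) ≤ ∫ x, ((unc x n).card : ℝ) ∂(P d) := by
      have h4 : ∫ _x : ℕ → Torus d, (1 : ℝ) ∂(P d) = 1 := by simp
      refine h4.symm.le.trans ?_
      refine integral_mono (integrable_const 1) (integrable_card n) fun x => ?_
      have h5 : 0 ∈ unc x n := mem_unc (by omega) (unc_zero x)
      have h6 : 1 ≤ (unc x n).card := Finset.card_pos.mpr ⟨0, h5⟩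
      have h7 : (1 : ℝ) ≤ ((unc x n).card : ℝ) := Nat.one_le_cast.mpr h6
      exact h7
    calc min (e0 / 2) 1 * (n : ℝ) ^ γ ≤ 1 * (T : ℝ) ^ γ :=
          mul_le_mul (min_le_right _ _) h2 (by positivity) zero_le_one
      _ ≤ _ := mul_le_mul_of_nonneg_right h3 hTγ.le
  · set m : ℕ := Nat.log K (n / T) with hm
    have h1 : K ^ m ≤ n / T := Nat.pow_log_le_self K hq.ne'
    have h2 : n / T < K ^ (m + 1) := Nat.lt_pow_succ_log_self hK1 _
    have h3 : K ^ m * T ≤ n := (Nat.mul_le_mul_right _ h1).trans (Nat.div_mul_le_self _ _)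
    have h4 : n < K ^ (m + 1) * T := by
      rwa [Nat.div_lt_iff_lt_mul (by omega)] at h2
    have h5 : K ^ m * ts < n := by
      have h6 : 0 < K ^ m := by positivity
      rw [hT, mul_add, mul_one] at h3
      omega
    have h6 : (n : ℝ) ^ γ ≤ 2 ^ (m + 1) * (T : ℝ) ^ γ := by
      have h7 : (n : ℝ) ≤ (K : ℝ) ^ (m + 1) * T := by exact_mod_cast h4.le
      refine (Real.rpow_le_rpow hn0.le h7 hγ0.le).trans (le_of_eq ?_)
      rw [Real.mul_rpow (by positivity) hT0.le, ← Real.rpow_natCast, ← Real.rpow_mul (by positivity),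
        mul_comm ((m + 1 : ℕ) : ℝ) γ, Real.rpow_mul (by positivity), hKγ, Real.rpow_natCast]
    have h7 := (aa_pow hd hj0 hsm ts m).trans (aa_le h5)
    calc min (e0 / 2) 1 * (n : ℝ) ^ γ ≤ (e0 / 2) * (2 ^ (m + 1) * (T : ℝ) ^ γ) :=
          mul_le_mul (min_le_left _ _) h6 (by positivity) (by positivity)
      _ = 2 ^ m * e0 * (T : ℝ) ^ γ := by ring
      _ ≤ _ := mul_le_mul_of_nonneg_right h7 hTγ.le

/-- `|U_n|` grows with `n` -/
lemma card_mono (x : ℕ → Torus d) {m n : ℕ} (h : m ≤ n) : (unc x m).card ≤ (unc x n).card := by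
  refine Finset.card_le_card fun v hv => ?_
  rw [mem_unc_iff] at hv ⊢
  exact ⟨hv.1.trans_le h, hv.2⟩

lemma card_le (x : ℕ → Torus d) (n : ℕ) : (unc x n).card ≤ n := by
  refine (Finset.card_le_card (t := Finset.range n) ?_).trans (by simp)
  intro v hv
  exact Finset.mem_range.mpr (mem_unc_iff.mp hv).1

/-- a bound for the probability from a bound for the expectation -/
lemma prob_ge {m : ℕ} {y : ℝ} (hy : 0 ≤ y)
    (h : 2 * y ≤ ∫ x, ((unc x m).card : ℝ) ∂(P d)) :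
    y ≤ m * (P d).real {x | y ≤ ((unc x m).card : ℝ)} := by
  set A : Set (ℕ → Torus d) := {x | y ≤ ((unc x m).card : ℝ)} with hA
  have hAm : MeasurableSet A := measurableSet_le measurable_const (measurable_card m)
  have h1 : ∀ x : ℕ → Torus d, ((unc x m).card : ℝ) ≤ y + Set.indicator A (fun _ => (m : ℝ)) x := by
    intro x
    by_cases hx : x ∈ A
    · rw [Set.indicator_of_mem hx]
      have : ((unc x m).card : ℝ) ≤ m := by exact_mod_cast card_le x m
      linarith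
    · rw [Set.indicator_of_notMem hx, add_zero]
      exact (not_le.mp hx).le
  have h3 : Integrable (fun x : ℕ → Torus d => y + Set.indicator A (fun _ => (m : ℝ)) x) (P d) :=
    (integrable_const y).add ((integrable_const (m : ℝ)).indicator hAm)
  have h4 := integral_mono (integrable_card m) h3 h1
  rw [integral_add (integrable_const y) ((integrable_const (m : ℝ)).indicator hAm),
    integral_const, integral_indicator_const _ hAm, smul_eq_mul, smul_eq_mul,
    probReal_univ, one_mul] at h4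
  linarith [mul_comm ((P d).real A) (m : ℝ)]

/-- **heavy tails** -/
theorem tail (hd : 2 ^ 20 ≤ d) : ∃ c : ℝ, 0 < c ∧ ∀ n : ℕ, 1 ≤ n → ∀ y : ℝ, 1 ≤ y →
    y ≤ c * (n : ℝ) ^ (1 / (2 * (d : ℝ) + 16)) →
      c / y ^ (2 * d + 15) ≤ (P d).real {x | y ≤ ((unc x n).card : ℝ)} := by
  obtain ⟨c₁, hc, hc1, hlow⟩ := power_explicit hd
  set γ : ℝ := 1 / (2 * (d : ℝ) + 16) with hγ
  have hden : (0 : ℝ) < 2 * (d : ℝ) + 16 := by positivity
  have hγ0 : 0 < γ := by positivity
  have hγD : ∀ a : ℝ, 0 ≤ a → (a ^ (2 * d + 16)) ^ γ = a := by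
    intro a ha
    have h2 : (2 * (d : ℝ) + 16) = ((2 * d + 16 : ℕ) : ℝ) := by push_cast; ring
    rw [← Real.rpow_natCast, ← Real.rpow_mul ha, hγ, h2, mul_one_div_cancel (by positivity), Real.rpow_one]
  refine ⟨min (c₁ / 2) ((c₁ / 2) ^ (2 * d + 16) / 2), by positivity, fun n hn y hy hyn => ?_⟩
  have hy0 : 0 < y := by linarith
  set w : ℝ := (2 * y / c₁) ^ (2 * d + 16) with hw
  have hw1 : 1 ≤ w := by
    refine one_le_pow₀ ?_
    rw [le_div_iff₀ hc]
    linarith
  set m : ℕ := ⌈w⌉₊ with hm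
  have hm1 : 1 ≤ m := Nat.one_le_iff_ne_zero.2 (by
    rw [hm]
    exact (Nat.ceil_pos.2 (by linarith)).ne')
  have hmw : (m : ℝ) ≤ 2 * w := by
    have := (Nat.ceil_lt_add_one (show 0 ≤ w by linarith)).le
    linarith
  -- `m ≤ n`
  have hmn : m ≤ n := by
    refine Nat.ceil_le.2 ?_
    have hn0 : (0 : ℝ) ≤ n := Nat.cast_nonneg n
    have h1 : 2 * y / c₁ ≤ (n : ℝ) ^ γ := by
      rw [div_le_iff₀ hc]
      have h2 : y ≤ c₁ / 2 * (n : ℝ) ^ γ :=
        hyn.trans (mul_le_mul_of_nonneg_right (min_le_left _ _) (Real.rpow_nonneg hn0 _))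
      linarith
    have h3 : w ≤ ((n : ℝ) ^ γ) ^ (2 * d + 16) := pow_le_pow_left₀ (by positivity) h1 _
    have h4 : ((n : ℝ) ^ γ) ^ (2 * d + 16) = n := by
      have h2 : (2 * (d : ℝ) + 16) = ((2 * d + 16 : ℕ) : ℝ) := by push_cast; ring
      rw [← Real.rpow_natCast, ← Real.rpow_mul hn0, hγ, h2, one_div_mul_cancel (by positivity), Real.rpow_one]
    rwa [h4] at h3
  -- the expectation at `m`
  have h5 : 2 * y ≤ ∫ x, ((unc x m).card : ℝ) ∂(P d) := by
    refine le_trans ?_ (hlow m hm1)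
    have h6 : 2 * y / c₁ ≤ (m : ℝ) ^ γ := by
      rw [← hγD (2 * y / c₁) (by positivity)]
      exact Real.rpow_le_rpow (by positivity) (Nat.le_ceil w) hγ0.le
    rw [div_le_iff₀ hc] at h6
    linarith
  have h6 := prob_ge hy0.le h5
  have h7 : (P d).real {x | y ≤ ((unc x m).card : ℝ)} ≤ (P d).real {x | y ≤ ((unc x n).card : ℝ)} :=
    measureReal_mono fun x (hx : y ≤ ((unc x m).card : ℝ)) =>
      hx.trans (by exact_mod_cast card_mono x hmn)
  refine le_trans ?_ h7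
  set p : ℝ := (P d).real {x | y ≤ ((unc x m).card : ℝ)} with hp
  have hp0 : 0 ≤ p := measureReal_nonneg
  have h8 : y ≤ 2 * w * p := h6.trans (mul_le_mul_of_nonneg_right hmw hp0)
  have h9 : w = y ^ (2 * d + 15) * y / (c₁ / 2) ^ (2 * d + 16) := by
    rw [hw, ← pow_succ, ← div_pow]
    congr 1
    field_simp
  have hq : 0 < (c₁ / 2) ^ (2 * d + 16) := by positivity
  have h10 : (c₁ / 2) ^ (2 * d + 16) / 2 ≤ y ^ (2 * d + 15) * p := by
    rw [h9] at h8
    have h11 : y * (c₁ / 2) ^ (2 * d + 16) ≤ 2 * (y ^ (2 * d + 15) * y) * p := by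
      have := mul_le_mul_of_nonneg_right h8 hq.le
      calc y * (c₁ / 2) ^ (2 * d + 16) ≤ 2 * (y ^ (2 * d + 15) * y / (c₁ / 2) ^ (2 * d + 16)) * p *
            (c₁ / 2) ^ (2 * d + 16) := this
        _ = 2 * (y ^ (2 * d + 15) * y) * p := by
            field_simp
    have h12 : y * ((c₁ / 2) ^ (2 * d + 16) / 2) ≤ y * (y ^ (2 * d + 15) * p) := by linarith
    exact le_of_mul_le_mul_left h12 hy0
  rw [div_le_iff₀ (by positivity)]
  calc min (c₁ / 2) ((c₁ / 2) ^ (2 * d + 16) / 2) ≤ (c₁ / 2) ^ (2 * d + 16) / 2 := min_le_right _ _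
    _ ≤ y ^ (2 * d + 15) * p := h10
    _ = p * y ^ (2 * d + 15) := mul_comm _ _

end Pool.Agent.Run7.h697.NN
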